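import Pool.Agent.V5helper50.IR.Base

/-!
# Project IR, job MIN (by helper50)
-/

set_option autoImplicit false

open Finset Filter Topology
open scoped Classical

namespace Pool.Agent.V5helper50.IR

open Pool.Agent.V5helper26.IR

/-! ### Sums -/

theorem geo_closed (q : ℝ) (N : ℕ) : (1 - q) ^ 2 * ∑ v ∈ range N, (2 * (v : ℝ) + 1) * q ^ v =
    1 + q - q ^ N * ((2 * N + 1) - (2 * N - 1) * q) := by
  induction N with
  | zero => simp
  | succ N ih =>
    rw [Finset.sum_range_succ, mul_add, ih]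
    push_cast
    ring

theorem geo_le {q : ℝ} (h0 : 0 ≤ q) (h1 : q ≤ 1) (N : ℕ) :
    (1 - q) ^ 2 * ∑ v ∈ range N, (2 * (v : ℝ) + 1) * q ^ v ≤ 2 := by
  rw [geo_closed]
  have h2 : 0 ≤ (2 * (N : ℝ) + 1) - (2 * N - 1) * q := by
    have h3 : (0 : ℝ) ≤ N := Nat.cast_nonneg _
    nlinarith
  have h3 : 0 ≤ q ^ N * ((2 * (N : ℝ) + 1) - (2 * N - 1) * q) := mul_nonneg (pow_nonneg h0 N) h2
  linarith

theorem one_sub_exp {t : ℝ} (h0 : 0 ≤ t) (h1 : t ≤ 1) : t / 2 ≤ 1 - Real.exp (-t) := by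
  have h2 : 1 + t ≤ Real.exp t := by have := Real.add_one_le_exp t; linarith
  have h3 : Real.exp (-t) * Real.exp t = 1 := by rw [← Real.exp_add]; simp
  have h4 : 0 < Real.exp (-t) := Real.exp_pos _
  have h5 : Real.exp (-t) * (1 + t) ≤ 1 := by
    calc Real.exp (-t) * (1 + t) ≤ Real.exp (-t) * Real.exp t :=
          mul_le_mul_of_nonneg_left h2 h4.le
      _ = 1 := h3
  have h6 : 1 ≤ (1 - t / 2) * (1 + t) := by nlinarith
  have h7 : Real.exp (-t) * (1 + t) ≤ (1 - t / 2) * (1 + t) := h5.trans h6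
  have h8 := le_of_mul_le_mul_right h7 (by linarith)
  linarith

theorem sq_eq_sum (V : ℕ) : ((V : ℝ) + 1) ^ 2 = ∑ v ∈ range (V + 1), (2 * (v : ℝ) + 1) := by
  induction V with
  | zero => simp
  | succ V ih =>
    rw [Finset.sum_range_succ, ← ih]
    push_cast
    ring

/-- second moment from tails -/
theorem sum_sq {ι : Type} (S : Finset ι) (V : ι → ℕ) (N : ℕ) (hN : ∀ i ∈ S, V i < N) :
    ∑ i ∈ S, ((V i : ℝ) + 1) ^ 2 =
      ∑ v ∈ range N, (2 * (v : ℝ) + 1) * ((S.filter fun i => v ≤ V i).card : ℝ) := by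
  have h1 : ∀ i ∈ S, ((V i : ℝ) + 1) ^ 2 =
      ∑ v ∈ range N, (2 * (v : ℝ) + 1) * (if v ≤ V i then (1 : ℝ) else 0) := by
    intro i hi
    rw [sq_eq_sum]
    have h2 : range (V i + 1) = (range N).filter fun v => v ≤ V i := by
      ext v
      have := hN i hi
      simp only [mem_range, mem_filter]
      omega
    rw [h2, Finset.sum_filter]
    refine Finset.sum_congr rfl fun v _ => ?_
    split_ifs <;> simp
  rw [Finset.sum_congr rfl h1, Finset.sum_comm]
  refine Finset.sum_congr rfl fun v _ => ?_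
  rw [← Finset.mul_sum, Finset.sum_boole]

theorem tail_one (L v : ℕ) {Λ : ℝ} (hL : (L : ℝ) ≤ Λ) :
    ((L - v : ℕ) : ℝ) ≤ L * Real.exp (-(v / Λ)) := by
  by_cases h : v < L
  · have hLp : (0 : ℝ) < L := by exact_mod_cast (by omega : 0 < L)
    have hΛ : 0 < Λ := hLp.trans_le hL
    rw [Nat.cast_sub h.le]
    have h1 : -(v / (L : ℝ)) + 1 ≤ Real.exp (-(v / (L : ℝ))) := Real.add_one_le_exp _
    have h2 : Real.exp (-(v / (L : ℝ))) ≤ Real.exp (-(v / Λ)) := by
      apply Real.exp_le_exp.2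
      apply neg_le_neg
      exact div_le_div_of_nonneg_left (Nat.cast_nonneg _) hLp hL
    have h3 : (L : ℝ) - v = L * (-(v / (L : ℝ)) + 1) := by field_simp; ring
    rw [h3]
    exact mul_le_mul_of_nonneg_left (h1.trans h2) hLp.le
  · have : L - v = 0 := by omega
    rw [this, Nat.cast_zero]
    positivity

/-! ### Fibres -/

section fib
variable {α : Type} [Fintype α] {r : α → α → Prop} {M : ℕ} {B : Finset α}

theorem lo_off (hA : Anti r B) {f g : α → ℕ} (h : ∀ z, z ∉ B → f z = g z) {y : α} (hy : y ∈ B) :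
    lo r f y = lo r g y :=
  lo_congr fun z hz => h z fun hzB => hA z hzB y hy hz

theorem hi_off (hA : Anti r B) {f g : α → ℕ} (h : ∀ z, z ∉ B → f z = g z) {y : α} (hy : y ∈ B) :
    hi r M f y = hi r M g y :=
  hi_congr fun z hz => h z fun hzB => hA y hy z hzB hz

theorem mem_of_off (hM : 1 ≤ M) (hA : Anti r B) {f g : α → ℕ} (hf : f ∈ Om r M)
    (h : ∀ z, z ∉ B → g z = f z) (hB : ∀ y ∈ B, lo r f y ≤ g y ∧ g y ≤ hi r M f y) :
    g ∈ Om r M := by
  have hm := mem_Om.1 hf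
  refine mem_Om.2 ⟨fun z => ?_, fun a b hab => ?_⟩
  · by_cases hz : z ∈ B
    · have h1 := (hB z hz).2
      have h2 := hi_le_M (r := r) (M := M) f z
      omega
    · rw [h z hz]; exact hm.1 z
  · by_cases ha : a ∈ B
    · by_cases hb : b ∈ B
      · exact absurd hab (hA a ha b hb)
      · rw [h b hb]
        exact (hB a ha).2.trans (hi_le' hab (hm.1 b))
    · by_cases hb : b ∈ B
      · rw [h a ha]
        exact (le_lo hab).trans (hB b hb).1
      · rw [h a ha, h b hb]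
        exact hm.2 a b hab

/-- the base point of the fibre -/
noncomputable def bp (r : α → α → Prop) (B : Finset α) (f : α → ℕ) : α → ℕ :=
  fun z => if z ∈ B then lo r f z else f z

theorem bp_eq_iff (hA : Anti r B) (f g : α → ℕ) :
    bp r B f = bp r B g ↔ ∀ z, z ∉ B → f z = g z := by
  constructor
  · intro h z hz
    have := congrFun h z
    unfold bp at this
    rwa [if_neg hz, if_neg hz] at this
  · intro h
    funext z
    unfold bp
    by_cases hz : z ∈ B
    · rw [if_pos hz, if_pos hz, lo_off hA h hz]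
    · rw [if_neg hz, if_neg hz, h z hz]

/-- the number of the elements of a fibre with large minimum -/
theorem card_fib (hM : 1 ≤ M) (hA : Anti r B) (hB : B.Nonempty) {f₀ : α → ℕ} (hf₀ : f₀ ∈ Om r M)
    (v : ℕ) :
    (((Om r M).filter fun f => bp r B f = bp r B f₀).filter
      fun f => v ≤ B.inf' hB fun y => f y - lo r f y).card =
      ∏ y ∈ B, (hi r M f₀ y + 1 - (lo r f₀ y + v)) := by
  have h1 : (((Om r M).filter fun f => bp r B f = bp r B f₀).filter
      fun f => v ≤ B.inf' hB fun y => f y - lo r f y) =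
      Fintype.piFinset fun z => if z ∈ B then Icc (lo r f₀ z + v) (hi r M f₀ z) else {f₀ z} := by
    ext f
    rw [mem_filter, mem_filter, bp_eq_iff hA, Fintype.mem_piFinset]
    constructor
    · rintro ⟨⟨hf, hoff⟩, hv⟩ z
      by_cases hz : z ∈ B
      · rw [if_pos hz, mem_Icc]
        have h2 : v ≤ f z - lo r f z := (Finset.le_inf'_iff hB _).1 hv z hz
        rw [← lo_off hA hoff hz, ← hi_off hA hoff hz]
        have h3 := lo_le hf z
        exact ⟨by omega, le_hi hf z⟩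
      · rw [if_neg hz, mem_singleton]
        exact hoff z hz
    · intro h
      have hoff : ∀ z, z ∉ B → f z = f₀ z := by
        intro z hz
        have := h z
        rwa [if_neg hz, mem_singleton] at this
      have hin : ∀ y ∈ B, lo r f₀ y + v ≤ f y ∧ f y ≤ hi r M f₀ y := by
        intro y hy
        have := h y
        rwa [if_pos hy, mem_Icc] at this
      refine ⟨⟨mem_of_off hM hA hf₀ hoff fun y hy => ⟨by have := (hin y hy).1; omega,
        (hin y hy).2⟩, hoff⟩, ?_⟩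
      rw [Finset.le_inf'_iff]
      intro y hy
      rw [lo_off hA hoff hy]
      have := (hin y hy).1
      omega
  rw [h1, Fintype.card_piFinset]
  have h2 : ∀ z, (if z ∈ B then Icc (lo r f₀ z + v) (hi r M f₀ z) else {f₀ z}).card =
      if z ∈ B then (hi r M f₀ z + 1 - (lo r f₀ z + v)) else 1 := by
    intro z
    split_ifs
    · rw [Nat.card_Icc]
    · rw [card_singleton]
  rw [Finset.prod_congr rfl fun z _ => h2 z, Finset.prod_ite_mem, Finset.univ_inter]

theorem fib_bound (hM : 1 ≤ M) (hA : Anti r B) (hB : B.Nonempty) {Λ : ℝ}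
    (hΛ : (B.card : ℝ) ≤ Λ) {f₀ : α → ℕ} (hf₀ : f₀ ∈ Om r M)
    (hln : ∀ y ∈ B, (ln r M f₀ y : ℝ) ≤ Λ) :
    ∑ f ∈ (Om r M).filter (fun f => bp r B f = bp r B f₀),
      (((B.inf' hB fun y => f y - lo r f y : ℕ) : ℝ) + 1) ^ 2 ≤
    32 * (Λ / B.card) ^ 2 * (((Om r M).filter fun f => bp r B f = bp r B f₀).card : ℝ) := by
  set F := (Om r M).filter (fun f => bp r B f = bp r B f₀) with hF
  have hbpos : (0 : ℝ) < B.card := by exact_mod_cast Finset.card_pos.2 hB
  have hΛpos : 0 < Λ := hbpos.trans_le hΛ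
  -- the number of the elements
  have hcard : (F.card : ℝ) = ∏ y ∈ B, (ln r M f₀ y : ℝ) := by
    have h1 := card_fib hM hA hB hf₀ 0
    have h2 : (F.filter fun f => 0 ≤ B.inf' hB fun y => f y - lo r f y) = F :=
      Finset.filter_true_of_mem fun f _ => Nat.zero_le _
    rw [← hF, h2] at h1
    rw [h1]
    push_cast
    refine Finset.prod_congr rfl fun y _ => ?_
    unfold ln
    rw [add_zero]
  set q : ℝ := Real.exp (-(B.card / Λ)) with hq
  have htail : ∀ v : ℕ, ((F.filter fun f => v ≤ B.inf' hB fun y => f y - lo r f y).card : ℝ) ≤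
      F.card * q ^ v := by
    intro v
    rw [hF, card_fib hM hA hB hf₀ v, ← hF, hcard]
    push_cast
    calc ∏ y ∈ B, ((hi r M f₀ y + 1 - (lo r f₀ y + v) : ℕ) : ℝ)
        ≤ ∏ y ∈ B, ((ln r M f₀ y : ℝ) * Real.exp (-(v / Λ))) := by
          refine Finset.prod_le_prod (fun y _ => Nat.cast_nonneg _) fun y hy => ?_
          have h1 := tail_one (ln r M f₀ y) v (hln y hy)
          have h2 : hi r M f₀ y + 1 - (lo r f₀ y + v) = ln r M f₀ y - v := by
            unfold ln
            omega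
          rw [h2]
          exact h1
      _ = (∏ y ∈ B, (ln r M f₀ y : ℝ)) * q ^ v := by
          rw [Finset.prod_mul_distrib, Finset.prod_const]
          congr 1
          rw [hq, ← Real.exp_nat_mul, ← Real.exp_nat_mul]
          congr 1
          field_simp
  -- all minima are smaller than `M`
  obtain ⟨y₁, hy₁⟩ := hB
  have hlt : ∀ f ∈ F, (B.inf' ⟨y₁, hy₁⟩ fun y => f y - lo r f y) < M := by
    intro f hf
    have h1 : (B.inf' ⟨y₁, hy₁⟩ fun y => f y - lo r f y) ≤ f y₁ - lo r f y₁ :=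
      Finset.inf'_le _ hy₁
    have h2 := lt_of_mem (mem_filter.1 hf).1 y₁
    omega
  rw [sum_sq F (fun f => B.inf' ⟨y₁, hy₁⟩ fun y => f y - lo r f y) M hlt]
  have h1 : ∑ v ∈ range M, (2 * (v : ℝ) + 1) *
      ((F.filter fun f => v ≤ B.inf' ⟨y₁, hy₁⟩ fun y => f y - lo r f y).card : ℝ) ≤
      F.card * ∑ v ∈ range M, (2 * (v : ℝ) + 1) * q ^ v := by
    rw [Finset.mul_sum]
    refine Finset.sum_le_sum fun v _ => ?_
    have h2 := mul_le_mul_of_nonneg_left (htail v) (by positivity : (0 : ℝ) ≤ 2 * (v : ℝ) + 1)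
    calc (2 * (v : ℝ) + 1) *
          ((F.filter fun f => v ≤ B.inf' ⟨y₁, hy₁⟩ fun y => f y - lo r f y).card : ℝ)
        ≤ (2 * (v : ℝ) + 1) * (F.card * q ^ v) := h2
      _ = _ := by ring
  refine h1.trans ?_
  -- the geometric sum
  have ht0 : 0 ≤ (B.card : ℝ) / Λ := by positivity
  have ht1 : (B.card : ℝ) / Λ ≤ 1 := (div_le_one hΛpos).2 hΛ
  have hq1 : (B.card : ℝ) / Λ / 2 ≤ 1 - q := one_sub_exp ht0 ht1
  have hq2 : q ≤ 1 := by
    have : 0 ≤ (B.card : ℝ) / Λ / 2 := by positivity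
    linarith
  have hgeo := geo_le (Real.exp_pos _).le hq2 M
  rw [← hq] at hgeo
  set S : ℝ := ∑ v ∈ range M, (2 * (v : ℝ) + 1) * q ^ v with hS
  have hS0 : 0 ≤ S := Finset.sum_nonneg fun v _ => by positivity
  have h3 : ((B.card : ℝ) / Λ / 2) ^ 2 * S ≤ 2 := by
    refine le_trans ?_ hgeo
    refine mul_le_mul_of_nonneg_right ?_ hS0
    exact pow_le_pow_left₀ (by positivity) hq1 2
  have h4 : S ≤ 32 * (Λ / B.card) ^ 2 := by
    have h5 : ((B.card : ℝ) / Λ / 2) ^ 2 * (Λ / B.card) ^ 2 = 1 / 4 := by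
      field_simp
      norm_num
    have h6 : 0 ≤ (Λ / B.card) ^ 2 := by positivity
    have h7 := mul_le_mul_of_nonneg_right h3 h6
    have h8 : ((B.card : ℝ) / Λ / 2) ^ 2 * S * (Λ / B.card) ^ 2 = S / 4 := by
      calc ((B.card : ℝ) / Λ / 2) ^ 2 * S * (Λ / B.card) ^ 2 =
          S * (((B.card : ℝ) / Λ / 2) ^ 2 * (Λ / B.card) ^ 2) := by ring
        _ = S / 4 := by rw [h5]; ring
    rw [h8] at h7
    linarith
  calc (F.card : ℝ) * S ≤ F.card * (32 * (Λ / B.card) ^ 2) :=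
        mul_le_mul_of_nonneg_left h4 (Nat.cast_nonneg _)
    _ = _ := by ring

end fib

theorem t_MIN : S_MIN := by
  intro α _ r M B hB hM hA Λ hΛ ψ hψ hoff hln
  have hmaps : ∀ f ∈ Om r M, bp r B f ∈ (Om r M).image (bp r B) :=
    fun f hf => Finset.mem_image_of_mem _ hf
  rw [← Finset.sum_fiberwise_of_maps_to hmaps, ← Finset.sum_fiberwise_of_maps_to hmaps (f := ψ),
    Finset.mul_sum]
  refine Finset.sum_le_sum fun g hg => ?_
  obtain ⟨f₀, hf₀, rfl⟩ := Finset.mem_image.1 hg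
  have hψf : ∀ f ∈ (Om r M).filter (fun f => bp r B f = bp r B f₀), ψ f = ψ f₀ := by
    intro f hf
    exact hoff f f₀ ((bp_eq_iff hA f f₀).1 (mem_filter.1 hf).2)
  rw [Finset.sum_congr rfl fun f hf => by rw [hψf f hf], ← Finset.mul_sum,
    Finset.sum_congr rfl hψf, Finset.sum_const, nsmul_eq_mul]
  by_cases h0 : ψ f₀ = 0
  · rw [h0]; simp
  · have h1 := fib_bound hM hA hB hΛ hf₀ (hln f₀ hf₀ h0)
    have h2 := mul_le_mul_of_nonneg_left h1 (hψ f₀ hf₀)
    calc _ ≤ _ := h2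
      _ = _ := by ring

end Pool.Agent.V5helper50.IR
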