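import Pool.Agent.V5helper50.IR.Base

/-!
# Project IR, job SGN (by helper50)
-/

set_option autoImplicit false

open Finset Filter Topology
open scoped Classical

namespace Pool.Agent.V5helper50.IR

open Pool.Agent.V5helper26.IR

theorem sg_swap (a b : ℕ) : sg b a = - sg a b := by
  unfold sg
  rcases lt_trichotomy a b with h | h | h
  · rw [if_neg (by omega), if_pos h, if_pos h]
  · subst h; simp
  · rw [if_pos h, if_neg (by omega), if_pos h]; norm_num

theorem abs_sg (a b : ℕ) : |sg a b| ≤ 1 := by
  unfold sg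
  split_ifs <;> norm_num

theorem abs_oo {α : Type} [Fintype α] (r : α → α → Prop) (M : ℕ) (y0 z0 x : α) (f : α → ℕ) :
    |oo r M y0 z0 x f| ≤ 1 := by
  unfold oo
  split_ifs <;> norm_num

theorem t_SGN : S_SGN := by
  intro α _ r M x y y0 z0 hM hxy hA hx0 hy0 hxz hyz
  have ax : x ∈ ({x, y, y0, z0} : Finset α) := by simp
  have ay : y ∈ ({x, y, y0, z0} : Finset α) := by simp
  have ay0 : y0 ∈ ({x, y, y0, z0} : Finset α) := by simp
  have az0 : z0 ∈ ({x, y, y0, z0} : Finset α) := by simp
  set O := Om r M with hO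
  have hOr : (0 : ℝ) < O.card := by exact_mod_cast Om_pos hM
  -- the swap
  set w : (α → ℕ) → (α → ℕ) := fun f => f ∘ Equiv.swap x y with hw
  have hwx : ∀ f, w f x = f y := by intro f; simp [hw]
  have hwy : ∀ f, w f y = f x := by intro f; simp [hw]
  have hwz : ∀ f z, z ≠ x → z ≠ y → w f z = f z := by
    intro f z h1 h2
    simp only [hw, Function.comp_apply]
    rw [Equiv.swap_apply_of_ne_of_ne h1 h2]
  have hww : ∀ f, w (w f) = f := by
    intro f
    funext z
    simp [hw, Function.comp_apply, Equiv.swap_apply_self]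
  have hlo : ∀ f, lo r (w f) y0 = lo r f y0 := by
    intro f
    refine lo_congr fun z hz => hwz f z ?_ ?_
    · rintro rfl; exact hA _ ax _ ay0 hz
    · rintro rfl; exact hA _ ay _ ay0 hz
  have hhi : ∀ f, hi r M (w f) z0 = hi r M f z0 := by
    intro f
    refine hi_congr fun z hz => hwz f z ?_ ?_
    · rintro rfl; exact hA _ az0 _ ax hz
    · rintro rfl; exact hA _ az0 _ ay hz
  set B := O.filter fun f => inJ r M y0 z0 x f ∧ inJ r M y0 z0 y f with hB
  have hwB : ∀ f ∈ B, w f ∈ B := by
    intro f hf
    rw [hB, mem_filter] at hf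
    obtain ⟨hfO, ⟨h1, h2⟩, h3, h4⟩ := hf
    have hm := mem_Om.1 hfO
    rw [hB, mem_filter]
    refine ⟨mem_Om.2 ⟨fun z => hm.1 _, fun a b hab => ?_⟩, ?_, ?_⟩
    · by_cases hax : a = x
      · subst hax
        have hbx : b ≠ a := by rintro rfl; exact hA _ ax _ ax hab
        have hby : b ≠ y := by rintro rfl; exact hA _ ax _ ay hab
        rw [hwx, hwz f b hbx hby]
        exact h4.trans (hi_le' (hxz b hab) (hm.1 b))
      by_cases hay : a = y
      · subst hay
        have hbx : b ≠ x := by rintro rfl; exact hA _ ay _ ax hab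
        have hby : b ≠ a := by rintro rfl; exact hA _ ay _ ay hab
        rw [hwy, hwz f b hbx hby]
        exact h2.trans (hi_le' (hyz b hab) (hm.1 b))
      rw [hwz f a hax hay]
      by_cases hbx : b = x
      · subst hbx
        rw [hwx]
        exact (le_lo (hx0 a hab)).trans h3
      by_cases hby : b = y
      · subst hby
        rw [hwy]
        exact (le_lo (hy0 a hab)).trans h1
      rw [hwz f b hbx hby]
      exact hm.2 a b hab
    · unfold inJ
      rw [hlo, hhi, hwx]
      exact ⟨h3, h4⟩
    · unfold inJ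
      rw [hlo, hhi, hwy]
      exact ⟨h1, h2⟩
  have hBsum : ∑ f ∈ B, sg (f x) (f y) = 0 := by
    have h1 : ∑ f ∈ B, sg (f x) (f y) = ∑ f ∈ B, - sg (f x) (f y) := by
      refine Finset.sum_bij (fun f _ => w f) hwB ?_ ?_ ?_
      · intro a _ b _ hab
        rw [← hww a, ← hww b]
        exact congrArg w hab
      · intro b hb
        exact ⟨w b, hwB b hb, hww b⟩
      · intro f _
        rw [hwx, hwy, sg_swap (f y) (f x)]
    rw [Finset.sum_neg_distrib] at h1
    linarith
  -- the pointwise estimate
  have hpt : ∀ f ∈ O, |sg (f x) (f y) - (oo r M y0 z0 y f - oo r M y0 z0 x f) -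
      (if inJ r M y0 z0 x f ∧ inJ r M y0 z0 y f then sg (f x) (f y) else 0)| ≤
      (if ¬ inJ r M y0 z0 x f ∧ ¬ inJ r M y0 z0 y f then (3 : ℝ) else 0) := by
    intro f _
    have hin : ∀ u : α, inJ r M y0 z0 u f → oo r M y0 z0 u f = 0 := by
      intro u hu
      unfold inJ at hu
      unfold oo
      rw [if_neg (by omega), if_neg (by omega)]
    by_cases h1 : inJ r M y0 z0 x f
    · by_cases h2 : inJ r M y0 z0 y f
      · rw [hin x h1, hin y h2, if_pos ⟨h1, h2⟩, if_neg (by tauto)]
        simp
      · rw [hin x h1, if_neg (by tauto), if_neg (by tauto)]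
        have h3 : sg (f x) (f y) = oo r M y0 z0 y f := by
          unfold inJ at h1 h2
          unfold oo sg
          by_cases h4 : hi r M f z0 < f y
          · rw [if_pos (by omega), if_pos h4]
          · have h5 : f y < lo r f y0 := by
              by_contra h6
              exact h2 ⟨by omega, by omega⟩
            rw [if_neg (by omega), if_pos (by omega), if_neg h4, if_pos h5]
        rw [h3]
        simp
    · by_cases h2 : inJ r M y0 z0 y f
      · rw [hin y h2, if_neg (by tauto), if_neg (by tauto)]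
        have h3 : sg (f x) (f y) = - oo r M y0 z0 x f := by
          unfold inJ at h1 h2
          unfold oo sg
          by_cases h4 : hi r M f z0 < f x
          · rw [if_neg (by omega), if_pos (by omega), if_pos h4]
          · have h5 : f x < lo r f y0 := by
              by_contra h6
              exact h1 ⟨by omega, by omega⟩
            rw [if_pos (by omega), if_neg h4, if_pos h5]
            norm_num
        rw [h3]
        simp
      · rw [if_neg (by tauto), if_pos ⟨h1, h2⟩, sub_zero]
        have h3 := abs_le.1 (abs_sg (f x) (f y))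
        have h4 := abs_le.1 (abs_oo r M y0 z0 x f)
        have h5 := abs_le.1 (abs_oo r M y0 z0 y f)
        rw [abs_le]
        constructor <;> linarith
  have hsum : |∑ f ∈ O, (sg (f x) (f y) - (oo r M y0 z0 y f - oo r M y0 z0 x f))| ≤
      3 * ((O.filter fun f => ¬ inJ r M y0 z0 x f ∧ ¬ inJ r M y0 z0 y f).card : ℝ) := by
    have h1 : ∑ f ∈ O, (sg (f x) (f y) - (oo r M y0 z0 y f - oo r M y0 z0 x f)) =
        ∑ f ∈ O, (sg (f x) (f y) - (oo r M y0 z0 y f - oo r M y0 z0 x f) -
          (if inJ r M y0 z0 x f ∧ inJ r M y0 z0 y f then sg (f x) (f y) else 0)) := by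
      rw [Finset.sum_sub_distrib (s := O)
        (f := fun f => sg (f x) (f y) - (oo r M y0 z0 y f - oo r M y0 z0 x f)),
        ← Finset.sum_filter, ← hB, hBsum, sub_zero]
    rw [h1]
    refine (Finset.abs_sum_le_sum_abs _ _).trans ((Finset.sum_le_sum hpt).trans ?_)
    rw [← Finset.sum_filter, Finset.sum_const, nsmul_eq_mul, mul_comm]
  have hex : ex r M (fun f => sg (f x) (f y)) - (ex r M (oo r M y0 z0 y) - ex r M (oo r M y0 z0 x)) =
      (∑ f ∈ O, (sg (f x) (f y) - (oo r M y0 z0 y f - oo r M y0 z0 x f))) / O.card := by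
    unfold ex
    rw [Finset.sum_sub_distrib, Finset.sum_sub_distrib]
    ring
  rw [hex, abs_div, abs_of_pos hOr, pr_eq (S := O.filter fun f => ¬ inJ r M y0 z0 x f ∧
    ¬ inJ r M y0 z0 y f) (fun f => by rw [mem_filter]), ← mul_div_assoc]
  exact div_le_div_of_nonneg_right hsum hOr.le

end Pool.Agent.V5helper50.IR
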