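import Pool.Agent.V5helper50.IR.Base

/-!
# Project IR, job VV (by helper50)
-/

set_option autoImplicit false

open Finset Filter Topology
open scoped Classical

namespace Pool.Agent.V5helper50.IR

open Pool.Agent.V5helper26.IR

theorem sum_Icc_real (l h : ℕ) (F : ℕ → ℝ) :
    ∑ u ∈ Icc l h, F (u - l) = ∑ i ∈ range (h + 1 - l), F i := by
  have h1 : Icc l h = Ico l (h + 1) := by
    ext u
    simp only [mem_Icc, mem_Ico]
    omega
  rw [h1, Finset.sum_Ico_eq_sum_range]
  refine Finset.sum_congr rfl fun i _ => ?_
  rw [Nat.add_sub_cancel_left]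

theorem sum_succ_ge (L : ℕ) : (L : ℝ) ^ 2 / 2 ≤ ∑ i ∈ range L, ((i : ℝ) + 1) := by
  induction L with
  | zero => simp
  | succ L ih =>
    rw [Finset.sum_range_succ]
    push_cast
    nlinarith

theorem card_half (L a : ℕ) (h : 2 * a ≤ L) :
    (L : ℝ) ≤ 2 * ∑ i ∈ range L, (if a ≤ i then (1 : ℝ) else 0) := by
  have h1 : ∑ i ∈ range L, (if a ≤ i then (1 : ℝ) else 0) = (L - a : ℕ) := by
    rw [Finset.sum_boole]
    congr 1
    have : (range L).filter (fun i => a ≤ i) = Ico a L := by
      ext u
      simp only [mem_filter, mem_range, mem_Ico]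
      omega
    rw [this, Nat.card_Ico]
  rw [h1]
  have h2 : L ≤ 2 * (L - a) := by omega
  exact_mod_cast h2

theorem t_VV (hF : S_FIB) (hN : S_NBU) (hA : S_ABS) : S_VV := by
  intro α _ r M x hM hx
  set O := Om r M with hO
  set v : (α → ℕ) → ℕ := fun f => f x - lo r f x with hv
  have hvle : ∀ f ∈ O, lo r f x ≤ f x := fun f hf => lo_le hf x
  have hvr : ∀ f ∈ O, ((v f : ℕ) : ℝ) = (f x : ℝ) - lo r f x := by
    intro f hf
    rw [hv]
    simp only
    rw [Nat.cast_sub (hvle f hf)]
  have hthr : ∀ s : ℕ, (O.filter fun f => (univ.filter fun z => r z x).sup f + s ≤ f x) =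
      O.filter fun f => s ≤ v f := by
    intro s
    refine Finset.filter_congr fun f hf => ?_
    have h1 := hvle f hf
    have h2 : (univ.filter fun z => r z x).sup f = lo r f x := rfl
    rw [h2, hv]
    simp only
    omega
  have hsub : ∀ s t : ℕ, O.card * (O.filter fun i => s + t ≤ v i).card ≤
      (O.filter fun i => s ≤ v i).card * (O.filter fun i => t ≤ v i).card := by
    intro s t
    have h1 := hN α r M x (univ.filter fun z => r z x) s t
    have h2 : ((Om r M).filter fun f => (univ.filter fun z => r z x).sup f ≤ f x) = O := by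
      refine Finset.filter_true_of_mem fun f hf => ?_
      exact hvle f hf
    rw [h2] at h1
    rw [← hthr, ← hthr, ← hthr]
    exact h1
  obtain ⟨a1, a2, a3⟩ := hA _ O v hsub
  -- the set `W`
  set W := O.filter (fun f => f x = lo r f x) with hW
  have hWv : W = O.filter fun f => v f < 1 := by
    refine Finset.filter_congr fun f hf => ?_
    have h1 := hvle f hf
    rw [hv]
    simp only
    omega
  have hWpos : 0 < W.card := by
    apply Finset.card_pos.2
    refine ⟨fun _ => 0, ?_⟩
    rw [hW, mem_filter]
    exact ⟨zero_mem hM, (lo_zero x).symm⟩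
  have hOpos : 0 < O.card := Om_pos hM
  have hOr : (0 : ℝ) < O.card := by exact_mod_cast hOpos
  have hWr : (0 : ℝ) < W.card := by exact_mod_cast hWpos
  have hkap : kap r M x = (O.card : ℝ) / W.card := rfl
  have hkpos : 0 < kap r M x := by rw [hkap]; positivity
  set Sv : ℝ := ∑ f ∈ O, ((v f : ℝ) + 1) with hSv
  have hSvN : Sv = ((∑ f ∈ O, (v f + 1) : ℕ) : ℝ) := by
    rw [hSv]; push_cast; rfl
  have hex : ex r M (fun f => (f x : ℝ) - lo r f x + 1) = Sv / O.card := by
    unfold ex
    congr 1
    refine Finset.sum_congr rfl fun f hf => ?_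
    rw [hvr f hf]
  have hSvpos : 0 < Sv := by
    have h1 : (O.card : ℝ) ≤ Sv := by
      rw [hSv, Finset.card_eq_sum_ones]
      push_cast
      refine Finset.sum_le_sum fun f _ => ?_
      have : (0 : ℝ) ≤ (v f : ℝ) := Nat.cast_nonneg _
      linarith
    linarith
  -- fibres
  have hlo : ∀ (g : α → ℕ) (u : ℕ), lo r (Function.update g x u) x = lo r g x := by
    intro g u
    refine lo_congr fun z hz => ?_
    have : z ≠ x := by
      rintro rfl
      exact hx hz
    rw [Function.update_of_ne this]
  have hhi : ∀ (g : α → ℕ) (u : ℕ), hi r M (Function.update g x u) x = hi r M g x := by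
    intro g u
    refine hi_congr fun z hz => ?_
    have : z ≠ x := by
      rintro rfl
      exact hx hz
    rw [Function.update_of_ne this]
  have hcardO : (O.card : ℝ) = ∑ g ∈ W, (ln r M g x : ℝ) := by
    have h1 := hF α r M x hM hx (fun _ => (1 : ℝ))
    simp only [Finset.sum_const, nsmul_eq_mul, mul_one, Nat.card_Icc] at h1
    exact h1
  have hSvW : Sv = ∑ g ∈ W, ∑ i ∈ range (ln r M g x), ((i : ℝ) + 1) := by
    have h1 := hF α r M x hM hx (fun f => (v f : ℝ) + 1)
    rw [hSv, h1]
    refine Finset.sum_congr rfl fun g _ => ?_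
    have h2 : ∀ u, ((v (Function.update g x u) : ℕ) : ℝ) + 1 =
        (fun i : ℕ => (i : ℝ) + 1) (u - lo r g x) := by
      intro u
      rw [hv]
      simp only
      rw [hlo, Function.update_self]
    rw [Finset.sum_congr rfl fun u _ => h2 u, sum_Icc_real (lo r g x) (hi r M g x)
      (fun i : ℕ => (i : ℝ) + 1)]
    rfl
  -- lower bound of the mean
  have hlow : (O.card : ℝ) ^ 2 ≤ 2 * (W.card : ℝ) * Sv := by
    have h1 : (O.card : ℝ) ^ 2 ≤ (W.card : ℝ) * ∑ g ∈ W, (ln r M g x : ℝ) ^ 2 := by
      rw [hcardO]
      exact sq_sum_le_card_mul_sum_sq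
    have h2 : ∑ g ∈ W, (ln r M g x : ℝ) ^ 2 ≤ 2 * Sv := by
      rw [hSvW, Finset.mul_sum]
      refine Finset.sum_le_sum fun g _ => ?_
      have := sum_succ_ge (ln r M g x)
      linarith
    nlinarith
  have e1 : kap r M x / 2 ≤ Sv / O.card := by
    rw [hkap, div_div, div_le_div_iff₀ (by positivity) hOr]
    nlinarith
  have e2 : Sv / O.card ≤ kap r M x := by
    have h1 := a1 1
    rw [← hWv] at h1
    have h2 : Sv * W.card ≤ (O.card : ℝ) ^ 2 := by
      rw [hSvN]
      have : ((∑ i ∈ O, (v i + 1)) * W.card : ℕ) ≤ 1 * O.card ^ 2 := h1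
      rw [one_mul] at this
      exact_mod_cast this
    rw [hkap, div_le_div_iff₀ hOr hWr]
    nlinarith
  have eT : ∀ k T : ℕ, 2 * kap r M x ≤ T →
      (2 : ℝ) ^ k * ((O.filter fun i => k * T ≤ v i).card : ℝ) ≤ O.card := by
    intro k T hT
    have h1 : 2 * (O.filter fun i => T ≤ v i).card ≤ O.card := by
      have h2 : (T : ℝ) * ((O.filter fun i => T ≤ v i).card : ℝ) ≤ Sv := by
        rw [hSv, mul_comm, ← nsmul_eq_mul]
        calc (O.filter fun i => T ≤ v i).card • (T : ℝ)
            ≤ ∑ f ∈ O.filter (fun i => T ≤ v i), ((v f : ℝ) + 1) := by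
              apply Finset.card_nsmul_le_sum
              intro f hf
              have : (T : ℝ) ≤ v f := by exact_mod_cast (mem_filter.1 hf).2
              linarith
          _ ≤ _ := Finset.sum_le_sum_of_subset_of_nonneg (Finset.filter_subset _ _)
              fun f _ _ => by positivity
      have h3 : Sv ≤ kap r M x * O.card := by
        have := (div_le_iff₀ hOr).1 e2
        exact this
      have h4 : (2 * kap r M x) * ((O.filter fun i => T ≤ v i).card : ℝ) ≤
          kap r M x * O.card := by
        calc (2 * kap r M x) * ((O.filter fun i => T ≤ v i).card : ℝ)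
            ≤ (T : ℝ) * ((O.filter fun i => T ≤ v i).card : ℝ) :=
              mul_le_mul_of_nonneg_right hT (Nat.cast_nonneg _)
          _ ≤ _ := h2.trans h3
      have h5 : (2 : ℝ) * ((O.filter fun i => T ≤ v i).card : ℝ) ≤ O.card := by
        have h6 : kap r M x * (2 * ((O.filter fun i => T ≤ v i).card : ℝ)) ≤
            kap r M x * O.card := by linarith
        exact le_of_mul_le_mul_left h6 hkpos
      exact_mod_cast h5
    have h2 := a3 T h1 k
    exact_mod_cast h2
  refine ⟨⟨?_, ?_, ?_⟩, ?_, ?_, ?_⟩
  · rw [hkap, le_div_iff₀ hWr, one_mul]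
    exact_mod_cast Finset.card_le_card (Finset.filter_subset _ _)
  · rw [hex]; exact e1
  · rw [hex]; exact e2
  · intro t
    have h1 : (Sv * ((O.filter fun i => v i < t).card : ℝ)) ≤ t * (O.card : ℝ) ^ 2 := by
      have := a1 t
      rw [hSvN]
      exact_mod_cast this
    have h2 : pr r M (fun f => f x < lo r f x + t) =
        ((O.filter fun i => v i < t).card : ℝ) / O.card := by
      refine pr_eq fun f => ?_
      rw [mem_filter]
      refine and_congr_right fun hf => ?_
      have h3 := hvle f hf
      rw [hv]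
      simp only
      omega
    rw [h2, div_le_div_iff₀ hOr hkpos]
    set n : ℝ := ((O.filter fun i => v i < t).card : ℝ) with hn
    have hn0 : 0 ≤ n := Nat.cast_nonneg _
    have h3 : kap r M x * O.card ≤ 2 * Sv := by
      have := (le_div_iff₀ hOr).1 e1
      linarith
    have h5 : n * (kap r M x * O.card) ≤ 2 * (t * (O.card : ℝ) ^ 2) := by
      calc n * (kap r M x * O.card) ≤ n * (2 * Sv) := mul_le_mul_of_nonneg_left h3 hn0
        _ = 2 * (Sv * n) := by ring
        _ ≤ _ := by linarith
    have h6 : (O.card : ℝ) * (n * kap r M x) ≤ O.card * (2 * t * O.card) := by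
      nlinarith
    exact le_of_mul_le_mul_left h6 hOr
  · have h1 : (O.card : ℝ) * ∑ f ∈ O, ((v f : ℝ) + 1) ^ 2 ≤ 2 * Sv ^ 2 := by
      rw [hSvN]
      exact_mod_cast a2
    have h2 : ex r M (fun f => ((f x : ℝ) - lo r f x + 1) ^ 2) =
        (∑ f ∈ O, ((v f : ℝ) + 1) ^ 2) / O.card := by
      unfold ex
      congr 1
      refine Finset.sum_congr rfl fun f hf => ?_
      rw [hvr f hf]
    have h3 : (∑ f ∈ O, ((v f : ℝ) + 1) ^ 2) / O.card ≤ 2 * (Sv / O.card) ^ 2 := by
      rw [div_pow, div_le_iff₀ hOr]
      have : 2 * (Sv ^ 2 / (O.card : ℝ) ^ 2) * O.card = 2 * Sv ^ 2 / O.card := by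
        field_simp
      rw [this, le_div_iff₀ hOr]
      linarith
    rw [h2]
    refine h3.trans ?_
    have h4 : (0 : ℝ) ≤ Sv / O.card := by positivity
    have h5 : (Sv / O.card) ^ 2 ≤ kap r M x ^ 2 := pow_le_pow_left₀ h4 e2 2
    linarith
  · intro k T hT
    have h0 := eT k T hT
    have h2k : (0 : ℝ) < 2 ^ k := by positivity
    constructor
    · have h2 : pr r M (fun f => lo r f x + k * T ≤ f x) =
          ((O.filter fun i => k * T ≤ v i).card : ℝ) / O.card := by
        refine pr_eq fun f => ?_
        rw [mem_filter]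
        refine and_congr_right fun hf => ?_
        have h3 := hvle f hf
        rw [hv]
        simp only
        generalize k * T = a
        omega
      rw [h2, div_le_div_iff₀ hOr h2k]
      linarith
    · have h2 : pr r M (fun f => 2 * k * T ≤ ln r M f x) =
          ((O.filter fun f => 2 * k * T ≤ ln r M f x).card : ℝ) / O.card :=
        pr_eq fun f => by rw [mem_filter]
      have h3 : ((O.filter fun f => 2 * k * T ≤ ln r M f x).card : ℝ) ≤
          2 * ((O.filter fun i => k * T ≤ v i).card : ℝ) := by
        have h4 : ((O.filter fun f => 2 * k * T ≤ ln r M f x).card : ℝ) =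
            ∑ f ∈ O, (if 2 * k * T ≤ ln r M f x then (1 : ℝ) else 0) := by
          rw [Finset.sum_boole]
        have h5 : ((O.filter fun i => k * T ≤ v i).card : ℝ) =
            ∑ f ∈ O, (if k * T ≤ v f then (1 : ℝ) else 0) := by
          rw [Finset.sum_boole]
        rw [h4, h5, hF α r M x hM hx (fun f => if 2 * k * T ≤ ln r M f x then (1 : ℝ) else 0),
          hF α r M x hM hx (fun f => if k * T ≤ v f then (1 : ℝ) else 0), Finset.mul_sum]
        refine Finset.sum_le_sum fun g _ => ?_
        have h6 : ∀ u, ln r M (Function.update g x u) x = ln r M g x := by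
          intro u
          unfold ln
          rw [hlo, hhi]
        have h7 : ∑ u ∈ Icc (lo r g x) (hi r M g x),
            (if k * T ≤ v (Function.update g x u) then (1 : ℝ) else 0) =
            ∑ i ∈ range (ln r M g x), (if k * T ≤ i then (1 : ℝ) else 0) := by
          have h8 : ∀ u, (if k * T ≤ v (Function.update g x u) then (1 : ℝ) else 0) =
              (fun i : ℕ => if k * T ≤ i then (1 : ℝ) else 0) (u - lo r g x) := by
            intro u
            have h9 : v (Function.update g x u) = u - lo r g x := by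
              rw [hv]
              simp only
              rw [hlo, Function.update_self]
            simp only [h9]
          rw [Finset.sum_congr rfl fun u _ => h8 u, sum_Icc_real (lo r g x) (hi r M g x)
            (fun i : ℕ => if k * T ≤ i then (1 : ℝ) else 0)]
          rfl
        rw [h7]
        simp only [h6]
        by_cases hc : 2 * k * T ≤ ln r M g x
        · simp only [if_pos hc, Finset.sum_const, nsmul_eq_mul, mul_one, Nat.card_Icc]
          have h9 := card_half (ln r M g x) (k * T) (by rw [← mul_assoc]; exact hc)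
          exact h9
        · simp only [if_neg hc, Finset.sum_const_zero]
          exact mul_nonneg (by norm_num) (Finset.sum_nonneg fun i _ => by split_ifs <;> norm_num)
      rw [h2, div_le_div_iff₀ hOr h2k]
      nlinarith

end Pool.Agent.V5helper50.IR
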