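import Pool.Agent.V5helper26.IR.Stm

/-!
# Project IR (by helper50): basic facts on `lo`, `hi` and `Om`
-/

set_option autoImplicit false

open Finset Filter Topology
open scoped Classical

namespace Pool.Agent.V5helper50.IR

open Pool.Agent.V5helper26.IR

variable {α : Type} [Fintype α] {r : α → α → Prop} {M : ℕ}

theorem mem_Om {f : α → ℕ} : f ∈ Om r M ↔ (∀ z, f z < M) ∧ ∀ a b, r a b → f a ≤ f b := by
  unfold Om
  rw [mem_filter, Fintype.mem_piFinset]
  simp only [mem_range]

theorem lt_of_mem {f : α → ℕ} (hf : f ∈ Om r M) (z : α) : f z < M := (mem_Om.1 hf).1 z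

theorem le_lo {f : α → ℕ} {z x : α} (h : r z x) : f z ≤ lo r f x := by
  unfold lo
  exact Finset.le_sup (f := f) (mem_filter.2 ⟨mem_univ _, h⟩)

theorem lo_le {f : α → ℕ} (hf : f ∈ Om r M) (x : α) : lo r f x ≤ f x := by
  unfold lo
  refine Finset.sup_le fun z hz => ?_
  exact (mem_Om.1 hf).2 z x (mem_filter.1 hz).2

theorem hi_le' {f : α → ℕ} {z x : α} (h : r x z) (hz : f z < M) : hi r M f x ≤ f z := by
  unfold hi
  have h1 : M - 1 - f z ≤ (univ.filter fun z => r x z).sup fun z => M - 1 - f z :=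
    Finset.le_sup (f := fun z => M - 1 - f z) (mem_filter.2 ⟨mem_univ _, h⟩)
  omega

theorem hi_le_M (f : α → ℕ) (x : α) : hi r M f x ≤ M - 1 := by
  unfold hi
  omega

theorem le_hi {f : α → ℕ} (hf : f ∈ Om r M) (x : α) : f x ≤ hi r M f x := by
  unfold hi
  have h1 : ((univ.filter fun z => r x z).sup fun z => M - 1 - f z) ≤ M - 1 - f x := by
    refine Finset.sup_le fun z hz => ?_
    have := (mem_Om.1 hf).2 x z (mem_filter.1 hz).2
    omega
  have h2 := lt_of_mem hf x
  omega

/-- `lo` at `x` depends only on the values at the elements below `x` -/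
theorem lo_congr {f g : α → ℕ} {x : α} (h : ∀ z, r z x → f z = g z) : lo r f x = lo r g x := by
  unfold lo
  exact Finset.sup_congr rfl fun z hz => h z (mem_filter.1 hz).2

theorem hi_congr {f g : α → ℕ} {x : α} (h : ∀ z, r x z → f z = g z) :
    hi r M f x = hi r M g x := by
  unfold hi
  congr 1
  exact Finset.sup_congr rfl fun z hz => by rw [h z (mem_filter.1 hz).2]

theorem ln_congr {f g : α → ℕ} {x : α} (h : ∀ z, r z x → f z = g z)
    (h' : ∀ z, r x z → f z = g z) : ln r M f x = ln r M g x := by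
  unfold ln
  rw [lo_congr h, hi_congr h']

theorem zero_mem (hM : 1 ≤ M) : (fun _ : α => 0) ∈ Om r M :=
  mem_Om.2 ⟨fun _ => hM, fun _ _ _ => le_rfl⟩

theorem Om_pos (hM : 1 ≤ M) : 0 < (Om r M).card := Finset.card_pos.2 ⟨_, zero_mem hM⟩

theorem lo_zero (x : α) : lo r (fun _ : α => 0) x = 0 := by
  unfold lo
  apply Nat.eq_zero_of_le_zero
  exact Finset.sup_le fun z _ => le_rfl

theorem pr_eq {p : (α → ℕ) → Prop} {S : Finset (α → ℕ)} (h : ∀ f, f ∈ S ↔ f ∈ Om r M ∧ p f) :
    pr r M p = (S.card : ℝ) / (Om r M).card := by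
  unfold pr
  have h1 : (Om r M).filter p = S := by
    ext f
    rw [mem_filter, h]
  rw [h1]

end Pool.Agent.V5helper50.IR
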